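import Pool.Agent.Lib.MP_d1327c_gt.ZH.APX
import Pool.Agent.Lib.MP_d1327c_gt.ZH.LIM
import Pool.Agent.Lib.MP_d1327c_gt.ZV.PCV
import Pool.Agent.Lib.MP_d1327c_gt.ZV.ZDV
import Pool.Agent.Lib.MP_d1327c_gt.ZV.GEV
import Pool.Agent.Lib.MP_d1327c_gt.ZV.SLV
import Pool.Agent.Lib.MP_d1327c_gt.ZV.CHV
import Pool.Agent.Lib.MP_d1327c_gt.ZV.SWV
import Pool.Agent.Lib.MP_d1327c_gt.ZV.TRV
import Pool.Agent.Lib.MP_d1327c_gt.ZV.ASV

/-!
# MP_d1327c_gt: zero-dimensional preimages for spaces with metrizable and separated pieces

`I` is a well-ordered uncountable set with countable initial segments, that is, `ω₁`. A set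
`S ⊆ I` is stationary if for every `h : I → I` it contains a `δ`, not the least element of `I`, with
`h i < δ` for all `i < δ`.
-/

set_option autoImplicit false

open Set Topology TopologicalSpace

namespace Pool.Agent.Results.MP_d1327c_gt.PiecesAndLevels

universe u v w

/-- Let `S ⊆ ω₁` be stationary and let `K a`, `a ∈ A`, be compact Hausdorff spaces with a point
`o a`. Let every `K a` be the union of closed metrizable sets `F a i`, `i < ω₁`, which increase with
`i` and contain `o a`, and let `f a i`, `i < ω₁`, be continuous real functions on `K a`. Let every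
`K a` be partitioned into pieces (`q a x` is the piece of `x`), every piece having a level in `ω₁`
(`lev a x`), such that, for all `α < ω₁`, the union of the pieces of level at least `α` is closed
and every piece is relatively open in the union of the pieces of at least its level. Suppose that
every piece is metrizable, or there is `i < ω₁` such that for all `δ ∈ S` above `i` the functions
`f a j`, `j < δ`, distinguish every point of `F a δ` in the piece from all other points of `F a δ`
of at least its level. Let `X` be a closed subset of the product of the `K a`, each of whose points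
`x` has `x a ≠ o a` for countably many `a` only. Then there are a compact Hausdorff space `Y` with a
base of clopen sets and a continuous map of `Y` onto `X` such that `C_p (Y)`, the set of the
continuous functions from `Y` to `ℝ` as a subspace of the product `ℝ ^ Y`, is Lindelöf. -/
theorem result {I : Type v} [LinearOrder I] [WellFoundedLT I] [Uncountable I]
    (hI : ∀ i : I, (Iio i).Countable) (S : Set I)
    (hS : ∀ h : I → I, ∃ δ ∈ S, (Iio δ).Nonempty ∧ ∀ i < δ, h i < δ)
    {A : Type u} (K : A → Type w) [∀ a, TopologicalSpace (K a)] [∀ a, CompactSpace (K a)]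
    [∀ a, T2Space (K a)] (Q : A → Type w) (o : ∀ a, K a) (F : ∀ a, I → Set (K a))
    (f : ∀ a, I → K a → ℝ) (lev : ∀ a, K a → I) (q : ∀ a, K a → Q a)
    (hF : ∀ a i, IsClosed (F a i)) (hmet : ∀ a i, MetrizableSpace (F a i))
    (hmono : ∀ a i j, i ≤ j → F a i ⊆ F a j) (ho : ∀ a i, o a ∈ F a i)
    (hU : ∀ a x, ∃ i, x ∈ F a i) (hf : ∀ a i, Continuous (f a i))
    (hclosed : ∀ a α, IsClosed {x | α ≤ lev a x})
    (hq : ∀ a x y, q a x = q a y → lev a x = lev a y)
    (hopen : ∀ a x, ∃ U, IsOpen U ∧ x ∈ U ∧ ∀ y ∈ U, lev a x ≤ lev a y → q a y = q a x)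
    (hpiece : ∀ a x, MetrizableSpace {y // q a y = q a x} ∨
      ∃ i, ∀ δ ∈ S, i < δ → ∀ y ∈ F a δ, q a y = q a x → ∀ z ∈ F a δ, lev a x ≤ lev a z →
        (∀ j < δ, f a j y = f a j z) → y = z)
    (X : Set (∀ a, K a)) (hX : IsClosed X) (hsupp : ∀ x ∈ X, {a | x a ≠ o a}.Countable) :
    ∃ (Y : Type (max u v w)) (_ : TopologicalSpace Y) (_ : CompactSpace Y) (_ : T2Space Y)
      (g : Y → X), IsTopologicalBasis {s : Set Y | IsClopen s} ∧ Continuous g ∧
        Function.Surjective g ∧ IsLindelof {u : Y → ℝ | Continuous u} :=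
  MPd1327c.ZV.specASV MPd1327c.ZV.specPCV MPd1327c.ZV.specZDV MPd1327c.ZV.specGEV
    MPd1327c.ZV.specSLV MPd1327c.ZV.specCHV (MPd1327c.ZV.specTRV MPd1327c.ZH.specAPX
      MPd1327c.ZH.specLIM MPd1327c.ZV.specSWV) I hI S hS A K Q o F f lev q hF hmet
    (fun a i j h => hmono a i j h) ho hU hf (fun a => ⟨hclosed a, hq a, hopen a⟩) hpiece X hX hsupp

end Pool.Agent.Results.MP_d1327c_gt.PiecesAndLevels
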